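import Pool.Agent.Lib.MP_fe5ad6_lc.Main
import Pool.Agent.Lib.MP_fe5ad6_lc.Comp

open Set

namespace Pool.Agent.Results.MP_fe5ad6_lc.ComputableHSID

open Pool.Agent.Lib.MP_fe5ad6_lc

/-- There is a computably enumerable set `W` of indices (no oracle needed) such that the effectively
closed subset `P = [0,1]^ω \ ⋃_{e ∈ W} B_e` of the Hilbert cube is hereditarily strongly
infinite-dimensional. -/
theorem result :
    ∃ W : Set ℕ, REPred (fun e => e ∈ W) ∧ HSID ((⋃ e ∈ W, B e)ᶜ : Set Cube) := by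
  obtain ⟨W, hW, h⟩ := exists_re
  exact ⟨W, hW, by rw [h]; exact hsid_P⟩

end Pool.Agent.Results.MP_fe5ad6_lc.ComputableHSID
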